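import Pool.Agent.R200.DomX

/-!
# MP_073e7c_an: for every `d ≥ 3` the space of domino tilings of `ℝ^d` contains a nonempty
strongly irreducible subshift
-/

namespace Pool.Agent.Results.MP_073e7c_an.StronglyIrreducibleDominoes

open Pool.Agent.R200.DomX

/-- For every `d ≥ 3` there is a nonempty strongly irreducible subshift contained in the space of
domino tilings of `ℝ^d`. -/
theorem result (d : ℕ) (hd : 3 ≤ d) :
    ∃ X : Set ((Fin d → ℤ) → Dir d), X ⊆ dominoTilings d ∧ X.Nonempty ∧ IsSubshift X ∧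
      StronglyIrreducible X := by
  obtain ⟨n, rfl⟩ : ∃ n, d = n + 3 := ⟨d - 3, by omega⟩
  exact ⟨XX n, XX_sub, XX_nonempty, ⟨XX_closed, XX_shift⟩, XX_irr⟩

end Pool.Agent.Results.MP_073e7c_an.StronglyIrreducibleDominoes
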